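import Pool.Agent.H57.UGB.Defs
import Pool.Agent.H81.UG.Ord

/-! # ORDER: the order lemma for slanted fields along the fibre over the generic point -/

set_option autoImplicit false

open MvPolynomial

namespace Pool.Agent.H57.UGB

open Pool.Agent.H47.KB Pool.Agent.H47.UG Pool.Agent.H81.UG

theorem h81_wd_append {n k : ℕ} (w : List (Derivation ℂ (JR n k) (JR n k))) (V : Derivation ℂ (JR n k) (JR n k))
    (P : JR n k) : wd (w ++ [V]) P = wd w (V P) := by
  unfold wd
  rw [List.foldr_append]
  rfl

variable {n d : ℕ} (T : FF d (genK n d)) (k : ℕ)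

/-- chain rule for the generic point -/
theorem h81_chain (hpi : ∀ (α : Fin (n + 2) →₀ ℕ), zk T k (X (Sum.inl α)) = aK T k α) (i : Fin k × Fin n) (P : JR n k) :
    pderiv i (zk T k P) = ∑ v : Fin (n + 2) × Fin (k + 1), zk T k (pderiv (Sum.inr v) P) * pderiv i (zk T k (X (Sum.inr v))) := by
  classical
  induction P using MvPolynomial.induction_on with
  | C c =>
    have h1 : zk T k (C c) = C (algebraMap ℂ T.L c) := by
      rw [← algebraMap_eq, AlgHom.commutes]
      rfl
    rw [h1, pderiv_C]
    simp
  | add p q hp hq => simp only [map_add, hp, hq, add_mul, Finset.sum_add_distrib]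
  | mul_X p v hp =>
    rw [map_mul, Derivation.leibniz, hp]
    simp only [Derivation.leibniz, smul_eq_mul, map_add, map_mul, add_mul, Finset.sum_add_distrib]
    congr 1
    · rcases v with α | v
      · rw [hpi, Finset.sum_eq_zero]
        · unfold aK
          rw [pderiv_C, mul_zero]
        · intro v _
          rw [pderiv_X_of_ne (by simp), map_zero, mul_zero, zero_mul]
      · rw [Finset.sum_eq_single v]
        · rw [pderiv_X_self, map_one, mul_one]
        · intro v' _ hv
          rw [pderiv_X_of_ne (by simpa using Ne.symm hv), map_zero, mul_zero, zero_mul]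
        · simp
    · rw [Finset.mul_sum]
      refine Finset.sum_congr rfl fun v' _ => ?_
      ring

/-- ORDER, from the statements on which it depends -/
theorem order_lemma_of (hk : 1 ≤ k) (hd : k + 1 ≤ d)
    (hpi : ∀ (α : Fin (n + 2) →₀ ℕ), zk T k (X (Sum.inl α)) = aK T k α)
    (hpr : ∀ v : Fin (n + 2) × Fin (k + 1), zk T k (X (Sum.inr v)) = PowerSeries.coeff (v.2 : ℕ) (ser T k (T.x v.1)))
    (hFc : ∀ s ≤ k, zk T k (Fc n d k s) = 0)
    (hone : ser T k 1 = 1)
    (hzero : ∀ v : T.L, PowerSeries.constantCoeff (ser T k v) = C v)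
    (hx : ∀ (l : Fin n) (s : ℕ) (hs : s < k), PowerSeries.coeff (s + 1) (ser T k (T.x l.succ.castSucc)) =
      C (algebraMap (KK n) T.L (((s + 1).factorial : KK n)⁻¹)) * X (⟨s, hs⟩, l))
    (span : ∀ (l : Fin (n + 2)), l ≠ 0 → ∀ (θ : Fin (n + 2) × Fin (k + 1) → Bk T k), (∀ s, θ (0, s) = 0) →
      (∀ j, θ (j, 0) = 0) →
      (∀ s ≤ k, ∑ v, zk T k (pderiv (Sum.inr v) (Fc n d k s)) * θ v = 0) →
      ∃ (N : ℕ) (w : List (Bk T k × Derivation ℂ (JR n k) (JR n k))), (∀ p ∈ w, IsFld n d k p.2) ∧
        ∀ P : JR n k, PowerSeries.coeff 1 (ser T k (T.x l)) ^ N * ∑ v, zk T k (pderiv (Sum.inr v) P) * θ v =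
          (w.map fun p => p.1 * zk T k (p.2 P)).sum)
    {Λ : Type} [Field Λ] [Algebra T.L Λ]
    (ξ : Fin k × Fin n → Λ) (l : Fin n) (hξ : ξ (⟨0, hk⟩, l) ≠ 0) (p : ℕ) (P : JR n k)
    (h : ∀ w, IsWd n d k w → w.length ≤ p → aeval ξ (zk T k (wd w P)) = 0) :
    VanK (p + 1) (map (algebraMap T.L Λ) (zk T k P)) ξ := by
  classical
  haveI : CharZero T.L := charZero_of_injective_algebraMap (algebraMap (KK n) T.L).injective
  haveI : CharZero Λ := charZero_of_injective_algebraMap (algebraMap T.L Λ).injective
  have hev : ∀ Q : Bk T k, eval ξ (map (algebraMap T.L Λ) Q) = aeval ξ Q := by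
    intro Q
    rw [eval_map, aeval_def]
  set y : Bk T k := PowerSeries.coeff 1 (ser T k (T.x l.succ.castSucc)) with hy
  have hy1 : eval ξ (map (algebraMap T.L Λ) y) ≠ 0 := by
    have h1 : y = X (⟨0, hk⟩, l) := by
      rw [hy, hx l 0 hk]
      simp
    rw [h1, map_X, eval_X]
    exact hξ
  -- the fields span the derivatives
  have key : ∀ i : Fin k × Fin n, ∃ (N : ℕ) (w : List (Bk T k × Derivation ℂ (JR n k) (JR n k))),
      (∀ p ∈ w, IsFld n d k p.2) ∧ ∀ P : JR n k, y ^ N * pderiv i (zk T k P) =
        (w.map fun p => p.1 * zk T k (p.2 P)).sum := by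
    intro i
    have hA : ∀ s : Fin (k + 1), pderiv i (zk T k (X (Sum.inr ((0 : Fin (n + 2)), s)))) = 0 := by
      intro s
      rw [hpr, T.x_zero, hone]
      by_cases hs : s = 0
      · subst hs
        simp
      · have : PowerSeries.coeff (s : ℕ) (1 : PowerSeries (Bk T k)) = 0 := by
          rw [PowerSeries.coeff_one, if_neg]
          intro h3
          exact hs (Fin.ext h3)
        change pderiv i (PowerSeries.coeff (s : ℕ) (1 : PowerSeries (Bk T k))) = 0
        rw [this, map_zero]
    have hB : ∀ j : Fin (n + 2), pderiv i (zk T k (X (Sum.inr (j, (0 : Fin (k + 1)))))) = 0 := by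
      intro j
      rw [hpr]
      have h3 : PowerSeries.coeff (((j, (0 : Fin (k + 1))) : Fin (n + 2) × Fin (k + 1)).2 : ℕ) (ser T k (T.x j)) = C (T.x j) := by
        rw [← hzero (T.x j)]
        simp
      change pderiv i (PowerSeries.coeff (((j, (0 : Fin (k + 1))) : Fin (n + 2) × Fin (k + 1)).2 : ℕ) (ser T k (T.x j))) = 0
      rw [h3, pderiv_C]
    have hC : ∀ s ≤ k, ∑ v, zk T k (pderiv (Sum.inr v) (Fc n d k s)) * pderiv i (zk T k (X (Sum.inr v))) = 0 := by
      intro s hs
      rw [← h81_chain T k hpi i, hFc s hs, map_zero]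
    obtain ⟨N, w, h1, h2⟩ := span l.succ.castSucc (by simp [Fin.ext_iff])
      (fun v => pderiv i (zk T k (X (Sum.inr v)))) hA hB hC
    refine ⟨N, w, h1, fun P => ?_⟩
    rw [h81_chain T k hpi i P]
    exact h2 P
  -- induction
  have main : ∀ (p : ℕ) (P : JR n k),
      (∀ w, IsWd n d k w → w.length ≤ p → aeval ξ (zk T k (wd w P)) = 0) →
      Van (p + 1) (map (algebraMap T.L Λ) (zk T k P)) ξ := by
    intro p
    induction p with
    | zero =>
      intro P h
      rw [zero_add, van_one, hev]
      exact h [] (by intro V hV; simp at hV) (by simp)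
    | succ p ih =>
      intro P h
      refine van_succ ?_ fun i => ?_
      · rw [hev]
        exact h [] (by intro V hV; simp at hV) (by simp)
      · obtain ⟨N, w, h1, h2⟩ := key i
        refine Van.of_pow_mul (N := N) hy1 ?_
        rw [pderiv_map, ← map_pow, ← map_mul, h2 P]
        have h3 : ∀ w : List (Bk T k × Derivation ℂ (JR n k) (JR n k)), (∀ p ∈ w, IsFld n d k p.2) →
            Van (p + 1) (map (algebraMap T.L Λ) (w.map fun p => p.1 * zk T k (p.2 P)).sum) ξ := by
          intro w
          induction w with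
          | nil =>
            intro _
            simp only [List.map_nil, List.sum_nil, map_zero]
            intro a _
            simp
          | cons q w ihw =>
            intro h4
            rw [List.map_cons, List.sum_cons, map_add, map_mul]
            refine Van.add (Van.mul (ih (q.2 P) fun w' hw' hl => ?_) _) (ihw fun p hp => h4 p (List.mem_cons_of_mem _ hp))
            rw [← h81_wd_append]
            refine h _ ?_ ?_
            · intro V hV
              rcases List.mem_append.1 hV with h5 | h5
              · exact hw' V h5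
              · rw [List.mem_singleton] at h5
                subst h5
                exact h4 q List.mem_cons_self
            · simpa using hl
        exact h3 w h1
  exact main p P h

end Pool.Agent.H57.UGB
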