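import Pool.Agent.H57.UGB.Api
import Pool.Agent.H99.UGB.Ser
import Pool.Agent.H5.UGB.SpanF
import Pool.Agent.H81.UGB.Order

/-!
# Block B, the order lemma: final form
-/

set_option autoImplicit false

open MvPolynomial

namespace Pool.Agent.H57.UGB

open Pool.Agent.H47.KB Pool.Agent.H47.UG

theorem order_lemma {n d : ℕ} (T : FF d (genK n d)) (k : ℕ) (hk : 1 ≤ k) (hd : k + 1 ≤ d) {Λ : Type} [Field Λ] [Algebra T.L Λ]
    (ξ : Fin k × Fin n → Λ) (l : Fin n) (hξ : ξ (⟨0, hk⟩, l) ≠ 0) (p : ℕ) (P : JR n k)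
    (h : ∀ w, IsWd n d k w → w.length ≤ p → aeval ξ (zk T k (wd w P)) = 0) :
    VanK (p + 1) (map (algebraMap T.L Λ) (zk T k P)) ξ :=
  order_lemma_of T k hk hd (fun α => pt_inl _ _ α) (fun v => pt_inr _ _ v)
    (fun s hs => (pt_Fc d hs _ _).trans (onT_zk T k s hs)) (ser_one T k) (coeff_ser_zero T k) (coeff_ser_x T k)
    (fun l hl θ h0 h1 h2 => span_fld n d k hk hd l hl (Bk T k) (aK T k) (fun j => ser T k (T.x j))
      (by rw [T.x_zero, ser_one]) θ h0 h1 h2) ξ l hξ p P h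

end Pool.Agent.H57.UGB
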